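import Mathlib

set_option autoImplicit false

/-!
# HFC spaces are strongly D: the combinatorial core

Fix a neighbourhood assignment `U` on an HFC space `X` and a finite support `G x` with
`{y | y = x on G x} ⊆ U x`.  Call `D` locally finite if it is so in the topology generated by the
sets `U x`.  A *state* is a locally finite set `D`.  Let `C` be the set of points not covered by
`⋃ x ∈ D, U x`; by hereditary Lindelöfness there are `a 0, a 1, …` in `C` with `C ⊆ ⋃ U (a k)`.
A state can be enlarged (1) by one uncovered point; (2) for a pattern `p = (R, r, n, b)`,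
either by finitely many `a k` which cover all points of `C` of pattern `p` whose free part
`G x \ R` misses some finite set, or by an infinite sequence of points `x k ∈ C` of pattern `p`
with pairwise disjoint free parts and `x k ∉ U (a 0) ∪ ⋯ ∪ U (a k)`; this sequence is locally
finite, and by HFC it covers all but countably many of the points of `C` of pattern `p`.
Closing off under these operations gives a countable set `Λ` of indices and a countable set `A` of
points (containing all exceptions).  Now enlarge the empty state `ω` times, taking care of all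
patterns over `Λ` by (2) and of all points of `A` by (1).  The points outside `A` are covered by
(2).  The union is locally finite as each new part lies outside the set covered before.
-/

namespace Pool.Agent.Helper741_HFC

open Set

universe u w

/-- For a finite set `F` of indices with `n` elements, `cyl b F` is the basic clopen set `[F * b]`:
all `x` whose value at the `i`-th element of `F` (in increasing order) is `b i`. -/
def cyl {ι : Type u} [LinearOrder ι] {n : ℕ} (b : Fin n → Bool) (F : Finset ι) :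
    Set (ι → Bool) :=
  {x | ∀ (h : F.card = n) (i : Fin n), x (F.orderEmbOfFin h i) = b i}

/-- `X ⊆ 2^ι` is *HFC*: for every `n`, every `b ∈ 2^n` and every infinite family `𝓕` of pairwise
disjoint `n`-element sets of indices, the set `X \ ⋃ F ∈ 𝓕, [F * b]` is countable. -/
def IsHFC {ι : Type u} [LinearOrder ι] (X : Set (ι → Bool)) : Prop :=
  ∀ (n : ℕ) (b : Fin n → Bool) (𝓕 : Set (Finset ι)), 𝓕.Infinite → (∀ F ∈ 𝓕, F.card = n) →
    𝓕.PairwiseDisjoint id → (X \ ⋃ F ∈ 𝓕, cyl b F).Countable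

/-! ### Closing off -/

theorem closing {ι : Type u} {W : Type w} (supp : W → Set ι) (hfin : ∀ x, (supp x).Finite)
    (Hw : W → Set ι)
    (hc : ∀ Λ : Set ι, Λ.Countable → {x | supp x ⊆ Λ}.Countable)
    (hH : ∀ x, (Hw x).Countable) (S : Set ι) (hS : S.Countable) :
    ∃ Λ : Set ι, S ⊆ Λ ∧ Λ.Countable ∧ ∀ x, supp x ⊆ Λ → Hw x ⊆ Λ := by
  let step : Set ι → Set ι := fun Λ => Λ ∪ ⋃ x ∈ {x | supp x ⊆ Λ}, Hw x
  let L : ℕ → Set ι := fun n => step^[n] S
  have hL : ∀ n, L (n + 1) = step (L n) := fun n => Function.iterate_succ_apply' step n S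
  have hLc : ∀ n, (L n).Countable := by
    intro n
    induction n with
    | zero => exact hS
    | succ n ih =>
      rw [hL]
      exact ih.union ((hc _ ih).biUnion (fun x _ => hH x))
  have hLm : Monotone L := by
    apply monotone_nat_of_le_succ
    intro n
    rw [hL]
    exact subset_union_left
  refine ⟨⋃ n, L n, subset_iUnion L 0, countable_iUnion hLc, ?_⟩
  intro x hx
  obtain ⟨N, hN⟩ : ∃ N, supp x ⊆ L N := by
    have hdir : Directed (· ⊆ ·) L := hLm.directed_le
    have h1 := hdir.exists_mem_subset_of_finset_subset_biUnion (s := (hfin x).toFinset)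
      (by simpa using hx)
    simpa using h1
  refine Subset.trans ?_ (subset_iUnion L (N + 1))
  rw [hL]
  refine Subset.trans ?_ subset_union_right
  exact subset_biUnion_of_mem (u := Hw) (show x ∈ {x | supp x ⊆ L N} from hN)

/-! ### Locally finite sets -/

section core

variable {α : Type u}

/-- The part of the space covered by `D`. -/
def cov (U : α → Set α) (D : Set α) : Set α := {z | ∃ x ∈ D, z ∈ U x}

/-- `D` is locally finite in the topology generated by the sets `U x`. -/
def LF (U : α → Set α) (D : Set α) : Prop :=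
  ∀ z, ∃ F : Set α, F.Finite ∧ (∀ x ∈ F, z ∈ U x) ∧ {d | d ∈ D ∧ ∀ x ∈ F, d ∈ U x}.Finite

theorem cov_mono {U : α → Set α} {D D' : Set α} (h : D ⊆ D') : cov U D ⊆ cov U D' :=
  fun _ ⟨x, hx, hz⟩ => ⟨x, h hx, hz⟩

theorem LF_of_finite {U : α → Set α} {D : Set α} (h : D.Finite) : LF U D :=
  fun _ => ⟨∅, finite_empty, by simp, h.subset (fun _ hd => hd.1)⟩

theorem LF_union {U : α → Set α} {D D' : Set α} (h : LF U D) (h' : LF U D') :
    LF U (D ∪ D') := by
  intro z
  obtain ⟨F, hF, hz, hf⟩ := h z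
  obtain ⟨F', hF', hz', hf'⟩ := h' z
  refine ⟨F ∪ F', hF.union hF', ?_, ?_⟩
  · rintro x (hx | hx)
    · exact hz x hx
    · exact hz' x hx
  · refine (hf.union hf').subset ?_
    rintro d ⟨hd | hd, hd2⟩
    · exact Or.inl ⟨hd, fun x hx => hd2 x (Or.inl hx)⟩
    · exact Or.inr ⟨hd, fun x hx => hd2 x (Or.inr hx)⟩

/-- The union of an increasing sequence of locally finite sets, each new part lying outside the
set covered before, is locally finite if it covers everything. -/
theorem LF_iUnion {U : α → Set α} (D : ℕ → Set α) (hLF : ∀ n, LF U (D n))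
    (hm : ∀ n, D n ⊆ D (n + 1)) (hnew : ∀ n, ∀ d ∈ D (n + 1), d ∉ D n → d ∉ cov U (D n))
    (hcov : ∀ z, z ∈ cov U (⋃ n, D n)) : LF U (⋃ n, D n) := by
  have hmono : Monotone D := monotone_nat_of_le_succ hm
  intro z
  obtain ⟨x, hx, hzx⟩ := hcov z
  obtain ⟨n, hn⟩ := mem_iUnion.1 hx
  obtain ⟨F, hF, hz, hf⟩ := hLF n z
  refine ⟨insert x F, hF.insert x, ?_, ?_⟩
  · rintro y (rfl | hy)
    · exact hzx
    · exact hz y hy
  · refine hf.subset ?_
    rintro d ⟨hd, hd2⟩
    refine ⟨?_, fun y hy => hd2 y (Or.inr hy)⟩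
    by_contra hdn
    obtain ⟨m, hm'⟩ := mem_iUnion.1 hd
    -- find the first index after `n` at which `d` appears
    have hex : ∃ m, d ∈ D (n + m) := by
      refine ⟨m, hmono (Nat.le_add_left m n) hm'⟩
    classical
    let k := Nat.find hex
    have hk : d ∈ D (n + k) := Nat.find_spec hex
    have hk0 : k ≠ 0 := by
      intro h0
      rw [h0] at hk
      exact hdn hk
    obtain ⟨j, hj⟩ := Nat.exists_eq_succ_of_ne_zero hk0
    have hj' : d ∉ D (n + j) := Nat.find_min hex (by omega)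
    have hk' : d ∈ D (n + j + 1) := by
      rw [hj] at hk
      exact hk
    exact hnew (n + j) d hk' hj' ⟨x, hmono (Nat.le_add_right n j) hn, hd2 x (Or.inl rfl)⟩

/-! ### Patterns -/

variable {ι : Type u} [LinearOrder ι]

/-- Patterns `(R, r, n, b)`; the function `r : R → 2` is given by the set where it is `1`. -/
abbrev Pat (ι : Type u) := Finset ι × Finset ι × (Σ n : ℕ, (Fin n → Bool))

/-- The support of a pattern. -/
def psupp (p : Pat ι) : Set ι := ↑p.1 ∪ ↑p.2.1

theorem psupp_finite (p : Pat ι) : (psupp p).Finite :=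
  (p.1.finite_toSet).union p.2.1.finite_toSet

theorem pat_countable (Λ : Set ι) (h : Λ.Countable) : {p : Pat ι | psupp p ⊆ Λ}.Countable := by
  have h1 : {R : Finset ι | (↑R : Set ι) ⊆ Λ}.Countable := by
    have := (countable_ofPred_finite_subset h).preimage (Finset.coe_injective (α := ι))
    refine this.mono ?_
    intro R hR
    exact ⟨R.finite_toSet, hR⟩
  have h2 : (univ : Set (Σ n : ℕ, (Fin n → Bool))).Countable := countable_univ
  refine ((h1.prod (h1.prod h2))).mono ?_
  rintro ⟨R, R', b⟩ hp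
  refine ⟨?_, ?_, trivial⟩
  · exact fun i hi => hp (Or.inl hi)
  · exact fun i hi => hp (Or.inr hi)

/-- The point `x` (with values `v x` and support `G x`) has pattern `p`. -/
def Matches (v : α → ι → Bool) (G : α → Finset ι) (p : Pat ι) (x : α) : Prop :=
  p.1 ⊆ G x ∧ (∀ i ∈ p.1, (v x i = true ↔ i ∈ p.2.1)) ∧ (G x \ p.1).card = p.2.2.1 ∧
    v x ∈ cyl p.2.2.2 (G x \ p.1)

theorem exists_pat (v : α → ι → Bool) (G : α → Finset ι) (Λ : Set ι) (z : α) :
    ∃ p : Pat ι, psupp p ⊆ Λ ∧ Matches v G p z ∧ ∀ i ∈ G z \ p.1, i ∉ Λ := by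
  classical
  let R : Finset ι := (G z).filter (fun i => i ∈ Λ)
  let R' : Finset ι := R.filter (fun i => v z i = true)
  refine ⟨(R, R', ⟨(G z \ R).card, fun i => v z ((G z \ R).orderEmbOfFin rfl i)⟩), ?_, ?_, ?_⟩
  · rintro i (hi | hi)
    · exact (Finset.mem_filter.1 hi).2
    · exact (Finset.mem_filter.1 (Finset.mem_filter.1 hi).1).2
  · refine ⟨Finset.filter_subset _ _, ?_, rfl, ?_⟩
    · intro i hi
      change v z i = true ↔ i ∈ R.filter (fun i => v z i = true)
      rw [Finset.mem_filter]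
      exact ⟨fun h => ⟨hi, h⟩, fun h => h.2⟩
    · intro h i
      rfl
  · intro i hi hiΛ
    rw [Finset.mem_sdiff] at hi
    exact hi.2 (Finset.mem_filter.2 ⟨hi.1, hiΛ⟩)

theorem mem_U_of_pat (v : α → ι → Bool) (G : α → Finset ι) (U : α → Set α)
    (hU : ∀ x y, (∀ i ∈ G x, v y i = v x i) → y ∈ U x) (p : Pat ι) (x z : α)
    (hx : Matches v G p x) (hz : Matches v G p z) (hzc : v z ∈ cyl p.2.2.2 (G x \ p.1)) :
    z ∈ U x := by
  apply hU
  intro i hi
  by_cases hip : i ∈ p.1
  · have h1 := hx.2.1 i hip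
    have h2 := hz.2.1 i hip
    rw [Bool.eq_iff_iff, h1, h2]
  · have hi' : i ∈ G x \ p.1 := Finset.mem_sdiff.2 ⟨hi, hip⟩
    obtain ⟨j, hj⟩ : ∃ j, (G x \ p.1).orderEmbOfFin hx.2.2.1 j = i := by
      have : i ∈ Set.range ((G x \ p.1).orderEmbOfFin hx.2.2.1) := by
        rw [Finset.range_orderEmbOfFin]
        exact hi'
      exact this
    rw [← hj, hzc hx.2.2.1 j, hx.2.2.2 hx.2.2.1 j]

/-- HFC for a family `v` of points. -/
def HFC' (v : α → ι → Bool) : Prop :=
  ∀ (n : ℕ) (b : Fin n → Bool) (𝓕 : Set (Finset ι)), 𝓕.Infinite → (∀ F ∈ 𝓕, F.card = n) →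
    𝓕.PairwiseDisjoint id → {x : α | ∀ F ∈ 𝓕, v x ∉ cyl b F}.Countable

/-- An infinite sequence of points of pattern `p` with pairwise disjoint free parts covers all but
countably many of the points of pattern `p`. -/
theorem seq_cover (v : α → ι → Bool) (G : α → Finset ι) (U : α → Set α)
    (hU : ∀ x y, (∀ i ∈ G x, v y i = v x i) → y ∈ U x) (hH : HFC' v)
    (p : Pat ι) (x : ℕ → α) (hx : ∀ n, Matches v G p (x n))
    (hd : ∀ m n, m < n → Disjoint (G (x m) \ p.1) (G (x n) \ p.1)) :
    ∃ E : Set α, E.Countable ∧ ∀ z, Matches v G p z → z ∉ E → z ∈ cov U (range x) := by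
  obtain ⟨R, R', n, b⟩ := p
  rcases Nat.eq_zero_or_pos n with h0 | hpos
  · subst h0
    refine ⟨∅, countable_empty, fun z hz _ => ⟨x 0, ⟨0, rfl⟩, ?_⟩⟩
    apply mem_U_of_pat v G U hU _ (x 0) z (hx 0) hz
    intro h i
    exact i.elim0
  · refine ⟨{z : α | ∀ F ∈ range (fun k => G (x k) \ R), v z ∉ cyl b F}, ?_, ?_⟩
    · have hdd : ∀ m n, m ≠ n → Disjoint (G (x m) \ R) (G (x n) \ R) := by
        intro m k hmk
        rcases lt_or_gt_of_ne hmk with h | h
        · exact hd m k h
        · exact (hd k m h).symm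
      have hinj : Function.Injective (fun k => G (x k) \ R) := by
        intro m k hmk
        by_contra hne
        have h1 := hdd m k hne
        change G (x m) \ R = G (x k) \ R at hmk
        rw [hmk, disjoint_self] at h1
        have h2 : (G (x k) \ R).card = n := (hx k).2.2.1
        rw [h1] at h2
        simp at h2
        omega
      apply hH n b
      · exact infinite_range_of_injective hinj
      · rintro _ ⟨k, rfl⟩
        exact (hx k).2.2.1
      · rintro _ ⟨m, rfl⟩ _ ⟨k, rfl⟩ hne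
        apply hdd
        intro h
        exact hne (by rw [h])
    · intro z hz hzE
      simp only [mem_ofPred_eq, not_forall, not_not] at hzE
      obtain ⟨F, ⟨k, rfl⟩, hk⟩ := hzE
      exact ⟨x k, ⟨k, rfl⟩, mem_U_of_pat v G U hU _ (x k) z (hx k) hz hk⟩

theorem self_mem (v : α → ι → Bool) (G : α → Finset ι) (U : α → Set α)
    (hU : ∀ x y, (∀ i ∈ G x, v y i = v x i) → y ∈ U x) (x : α) : x ∈ U x :=
  hU x x (fun _ _ => rfl)

/-- HFC spaces are hereditarily Lindelöf (in the form of neighbourhood assignments). -/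
theorem hereditarily_lindelof (v : α → ι → Bool) (G : α → Finset ι) (U : α → Set α)
    (hU : ∀ x y, (∀ i ∈ G x, v y i = v x i) → y ∈ U x) (hH : HFC' v) (C : Set α) :
    ∃ A : Set α, A.Countable ∧ A ⊆ C ∧ C ⊆ cov U A := by
  classical
  have stepL : ∀ p : Pat ι, ∃ (A' : Set α) (H : Finset ι), A'.Countable ∧ A' ⊆ C ∧
      ∀ z ∈ C, Matches v G p z → Disjoint (G z \ p.1) H → z ∈ cov U A' := by
    intro p
    by_cases hQ : ∀ H : Finset ι, ∃ x ∈ C, Matches v G p x ∧ Disjoint (G x \ p.1) H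
    · obtain ⟨x, hx, hd⟩ := exists_seq_of_forall_finset_exists
        (fun x => x ∈ C ∧ Matches v G p x)
        (fun x y => Disjoint (G x \ p.1) (G y \ p.1)) (by
          intro s _
          obtain ⟨y, hyC, hyp, hyd⟩ := hQ (s.biUnion (fun x => G x \ p.1))
          refine ⟨y, ⟨hyC, hyp⟩, fun x hxs => ?_⟩
          refine Disjoint.symm (Finset.disjoint_of_subset_right ?_ hyd)
          exact Finset.subset_biUnion_of_mem (fun x => G x \ p.1) hxs)
      obtain ⟨E, hE, hcov⟩ := seq_cover v G U hU hH p x (fun n => (hx n).2) hd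
      refine ⟨range x ∪ (E ∩ C), ∅, (countable_range x).union (hE.mono inter_subset_left), ?_, ?_⟩
      · rintro y (⟨n, rfl⟩ | hy)
        · exact (hx n).1
        · exact hy.2
      · intro z hz hzp _
        by_cases hzE : z ∈ E
        · exact ⟨z, Or.inr ⟨hzE, hz⟩, self_mem v G U hU z⟩
        · exact cov_mono subset_union_left (hcov z hzp hzE)
    · push Not at hQ
      obtain ⟨H, hH'⟩ := hQ
      refine ⟨∅, H, countable_empty, empty_subset _, ?_⟩
      intro z hz hzp hzd
      exact absurd hzd (hH' z hz hzp)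
  choose A' H hA' hAC hcov using stepL
  obtain ⟨Λ, _, hΛ, hcl⟩ := closing (psupp (ι := ι)) psupp_finite (fun p => (↑(H p) : Set ι))
    pat_countable (fun p => (H p).countable_toSet) ∅ countable_empty
  refine ⟨⋃ p ∈ {p | psupp p ⊆ Λ}, A' p, (pat_countable Λ hΛ).biUnion (fun p _ => hA' p), ?_, ?_⟩
  · simp only [iUnion_subset_iff]
    intro p _
    exact hAC p
  · intro z hz
    obtain ⟨p, hp, hzp, hzd⟩ := exists_pat v G Λ z
    have h1 : z ∈ cov U (A' p) := by
      apply hcov p z hz hzp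
      rw [Finset.disjoint_left]
      intro i hi hiH
      exact hzd i hi (hcl p hp hiH)
    refine cov_mono ?_ h1
    exact subset_biUnion_of_mem (u := A') (show p ∈ {p | psupp p ⊆ Λ} from hp)

/-- The step which takes care of a pattern. -/
theorem pattern_step (v : α → ι → Bool) (G : α → Finset ι) (U : α → Set α)
    (hU : ∀ x y, (∀ i ∈ G x, v y i = v x i) → y ∈ U x) (hH : HFC' v) (C : Set α) (p : Pat ι)
    (a : ℕ → α) (ha : ∀ k, a k ∈ C) (hac : ∀ z ∈ C, ∃ k, z ∈ U (a k)) :
    ∃ (D' : Set α) (H : Finset ι) (E : Set α), E.Countable ∧ D' ⊆ C ∧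
      (∀ z ∈ C, ∃ F : Set α, F.Finite ∧ (∀ x ∈ F, z ∈ U x) ∧
        {d | d ∈ D' ∧ ∀ x ∈ F, d ∈ U x}.Finite) ∧
      ∀ z ∈ C, Matches v G p z → Disjoint (G z \ p.1) H → z ∉ E → z ∈ cov U D' := by
  classical
  by_cases hQ : ∀ (H : Finset ι) (k : ℕ), ∃ x ∈ C, Matches v G p x ∧ Disjoint (G x \ p.1) H ∧
      ∀ j ≤ k, x ∉ U (a j)
  · obtain ⟨x, hx, hd⟩ := exists_seq_of_forall_finset_exists
      (fun x : ℕ × α => x.2 ∈ C ∧ Matches v G p x.2 ∧ ∀ j ≤ x.1, x.2 ∉ U (a j))
      (fun x y : ℕ × α => x.1 < y.1 ∧ Disjoint (G x.2 \ p.1) (G y.2 \ p.1)) (by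
        intro s _
        obtain ⟨y, hyC, hyp, hyd, hyU⟩ := hQ (s.biUnion (fun x => G x.2 \ p.1))
          (s.sup Prod.fst + 1)
        refine ⟨(s.sup Prod.fst + 1, y), ⟨hyC, hyp, hyU⟩, fun x hxs => ⟨?_, ?_⟩⟩
        · exact Nat.lt_succ_of_le (Finset.le_sup (f := Prod.fst) hxs)
        · refine Disjoint.symm (Finset.disjoint_of_subset_right ?_ hyd)
          exact Finset.subset_biUnion_of_mem (fun x : ℕ × α => G x.2 \ p.1) hxs)
    have hge : ∀ n, n ≤ (x n).1 := by
      intro n
      induction n with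
      | zero => exact Nat.zero_le _
      | succ n ih =>
        have := (hd n (n + 1) (Nat.lt_succ_self n)).1
        omega
    obtain ⟨E, hE, hcov⟩ := seq_cover v G U hU hH p (fun n => (x n).2) (fun n => (hx n).2.1)
      (fun m n hmn => (hd m n hmn).2)
    refine ⟨range (fun n => (x n).2), ∅, E, hE, ?_, ?_, ?_⟩
    · rintro _ ⟨n, rfl⟩
      exact (hx n).1
    · intro z hz
      obtain ⟨k, hk⟩ := hac z hz
      refine ⟨{a k}, finite_singleton _, ?_, ?_⟩
      · rintro y rfl
        exact hk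
      · refine ((finite_lt_nat k).image (fun n => (x n).2)).subset ?_
        rintro d ⟨⟨n, rfl⟩, hd2⟩
        refine ⟨n, ?_, rfl⟩
        by_contra hnk
        have hkn : k ≤ n := not_lt.1 hnk
        exact (hx n).2.2 k (le_trans hkn (hge n)) (hd2 _ rfl)
    · intro z _ hzp _ hzE
      exact hcov z hzp hzE
  · push Not at hQ
    obtain ⟨H, k, hHk⟩ := hQ
    refine ⟨a '' {j | j ≤ k}, H, ∅, countable_empty, ?_, ?_, ?_⟩
    · rintro _ ⟨j, _, rfl⟩
      exact ha j
    · intro z _
      exact ⟨∅, finite_empty, by simp, ((finite_le_nat k).image a).subset (fun d hd => hd.1)⟩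
    · intro z hz hzp hzd _
      obtain ⟨j, hj, hjz⟩ := hHk z hz hzp hzd
      exact ⟨a j, ⟨j, hj, rfl⟩, hjz⟩

/-- The support of a word of moves. -/
def wsupp (x : List (α × Pat ι)) : Set (ι ⊕ α) :=
  {t | ∃ y ∈ x, t = Sum.inr y.1 ∨ ∃ i ∈ psupp y.2, t = Sum.inl i}

theorem wsupp_finite (x : List (α × Pat ι)) : (wsupp x).Finite := by
  have : wsupp x = ⋃ y ∈ {y | y ∈ x}, ({Sum.inr y.1} ∪ Sum.inl '' (psupp y.2)) := by
    ext t
    simp only [wsupp, mem_ofPred_eq, mem_iUnion, mem_union, mem_singleton_iff, mem_image,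
      exists_prop]
    constructor
    · rintro ⟨y, hy, h | ⟨i, hi, rfl⟩⟩
      · exact ⟨y, hy, Or.inl h⟩
      · exact ⟨y, hy, Or.inr ⟨i, hi, rfl⟩⟩
    · rintro ⟨y, hy, h | ⟨i, hi, rfl⟩⟩
      · exact ⟨y, hy, Or.inl h⟩
      · exact ⟨y, hy, Or.inr ⟨i, hi, rfl⟩⟩
  rw [this]
  exact (x.finite_toSet).biUnion
    (fun y _ => (finite_singleton _).union ((psupp_finite y.2).image _))

theorem word_countable (Λ : Set (ι ⊕ α)) (h : Λ.Countable) :
    {x : List (α × Pat ι) | wsupp x ⊆ Λ}.Countable := by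
  have h1 : (Sum.inr ⁻¹' Λ : Set α).Countable := h.preimage Sum.inr_injective
  have h2 : (Sum.inl ⁻¹' Λ : Set ι).Countable := h.preimage Sum.inl_injective
  have hT : {y : α × Pat ι | y.1 ∈ (Sum.inr ⁻¹' Λ : Set α) ∧
      psupp y.2 ⊆ (Sum.inl ⁻¹' Λ : Set ι)}.Countable := by
    have := h1.prod (pat_countable _ h2)
    refine this.mono ?_
    intro y hy
    exact hy
  have := hT.to_subtype
  have h3 := countable_range
    (List.map ((↑) : {y : α × Pat ι | y.1 ∈ (Sum.inr ⁻¹' Λ : Set α) ∧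
      psupp y.2 ⊆ (Sum.inl ⁻¹' Λ : Set ι)} → α × Pat ι))
  rw [range_list_map_coe] at h3
  refine h3.mono ?_
  intro x hx y hy
  exact ⟨hx ⟨y, hy, Or.inl rfl⟩, fun i hi => hx ⟨y, hy, Or.inr ⟨i, hi, rfl⟩⟩⟩

/-- The combinatorial core: there is a locally finite set `D` with `cov U D` everything. -/
theorem core_theorem (v : α → ι → Bool) (G : α → Finset ι) (U : α → Set α)
    (hU : ∀ x y, (∀ i ∈ G x, v y i = v x i) → y ∈ U x) (hH : HFC' v) :
    ∃ D : Set α, LF U D ∧ ∀ z, z ∈ cov U D := by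
  classical
  by_contra hno
  have hne : Nonempty α := by
    by_contra hempty
    rw [not_nonempty_iff] at hempty
    exact hno ⟨∅, LF_of_finite finite_empty, fun z => (hempty.false z).elim⟩
  -- enumerations of countable covers of the uncovered part
  have hA : ∀ D : Set α, ∃ a : ℕ → α, LF U D → (∀ k, a k ∉ cov U D) ∧
      ∀ z, z ∉ cov U D → ∃ k, z ∈ U (a k) := by
    intro D
    by_cases hD : LF U D
    · obtain ⟨A, hAc, hAC, hcov⟩ := hereditarily_lindelof v G U hU hH {z | z ∉ cov U D}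
      have hAne : A.Nonempty := by
        by_contra hAe
        rw [not_nonempty_iff_eq_empty] at hAe
        apply hno
        refine ⟨D, hD, fun z => ?_⟩
        by_contra hz
        obtain ⟨x, hx, _⟩ := hcov hz
        rw [hAe] at hx
        exact hx
      obtain ⟨a, rfl⟩ := hAc.exists_eq_range hAne
      refine ⟨a, fun _ => ⟨fun k => hAC ⟨k, rfl⟩, fun z hz => ?_⟩⟩
      obtain ⟨_, ⟨k, rfl⟩, hk⟩ := hcov hz
      exact ⟨k, hk⟩
    · exact ⟨fun _ => Classical.arbitrary α, fun h => absurd h hD⟩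
  choose a ha using hA
  -- the pattern step
  have hP : ∀ (D : Set α) (p : Pat ι), ∃ (D' : Set α) (H : Finset ι) (E : Set α), E.Countable ∧
      (LF U D → (∀ d ∈ D', d ∉ cov U D) ∧ LF U D' ∧
        ∀ z, z ∉ cov U D → Matches v G p z → Disjoint (G z \ p.1) H → z ∉ E → z ∈ cov U D') := by
    intro D p
    by_cases hD : LF U D
    · obtain ⟨D', H, E, hE, hD'C, hlf, hcov⟩ := pattern_step v G U hU hH {z | z ∉ cov U D} p
        (a D) (ha D hD).1 (ha D hD).2
      refine ⟨D', H, E, hE, fun _ => ⟨fun d hd => hD'C hd, ?_, fun z hz => hcov z hz⟩⟩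
      intro z
      by_cases hz : z ∈ cov U D
      · obtain ⟨x, hx, hzx⟩ := hz
        refine ⟨{x}, finite_singleton x, ?_, ?_⟩
        · rintro y rfl
          exact hzx
        · refine finite_empty.subset ?_
          rintro d ⟨hd, hd2⟩
          exact hD'C hd ⟨x, hx, hd2 x rfl⟩
      · exact hlf z hz
    · exact ⟨∅, ∅, ∅, countable_empty, fun h => absurd h hD⟩
  choose D' H E hE hstep using hP
  let D1 : Set α → α → Set α := fun D x => D ∪ {y | y = x ∧ y ∉ cov U D}
  let N : Set α → α → Pat ι → Set α := fun D x p => D1 D x ∪ D' (D1 D x) p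
  have hD1LF : ∀ D x, LF U D → LF U (D1 D x) := fun D x h =>
    LF_union h (LF_of_finite ((finite_singleton x).subset (fun _ hy => hy.1)))
  have hNLF : ∀ D x p, LF U D → LF U (N D x p) := fun D x p h =>
    LF_union (hD1LF D x h) (hstep _ p (hD1LF D x h)).2.1
  have hDN : ∀ D x p, D ⊆ N D x p := fun D x p => subset_union_left.trans subset_union_left
  have hNnew : ∀ D x p, LF U D → ∀ d ∈ N D x p, d ∉ D → d ∉ cov U D := by
    rintro D x p hD d ((hd | ⟨_, hd⟩) | hd) hdD
    · exact absurd hd hdD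
    · exact hd
    · intro h
      exact (hstep _ p (hD1LF D x hD)).1 d hd (cov_mono subset_union_left h)
  have hN1 : ∀ D x p, x ∈ cov U (N D x p) := by
    intro D x p
    by_cases hx : x ∈ cov U D
    · exact cov_mono (hDN D x p) hx
    · exact ⟨x, Or.inl (Or.inr ⟨rfl, hx⟩), self_mem v G U hU x⟩
  -- words of moves
  let R : List (α × Pat ι) → Set α := fun x => x.foldr (fun y D => N D y.1 y.2) ∅
  let Hw : List (α × Pat ι) → Set (ι ⊕ α) := fun x =>
    match x with
    | [] => ∅
    | y :: x => Sum.inl '' (↑(H (D1 (R x) y.1) y.2) : Set ι) ∪ Sum.inr '' (E (D1 (R x) y.1) y.2)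
  obtain ⟨Λ, hS, hΛ, hcl⟩ := closing (wsupp (ι := ι) (α := α)) wsupp_finite Hw word_countable (by
    intro x
    cases x with
    | nil => exact countable_empty
    | cons y x => exact ((Finset.countable_toSet _).image _).union ((hE _ _).image _))
    {Sum.inr (Classical.arbitrary α)} (countable_singleton _)
  have h1 : (Sum.inr ⁻¹' Λ : Set α).Countable := hΛ.preimage Sum.inr_injective
  have h2 : (Sum.inl ⁻¹' Λ : Set ι).Countable := hΛ.preimage Sum.inl_injective
  obtain ⟨x, hx⟩ := h1.exists_eq_range ⟨Classical.arbitrary α, hS rfl⟩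
  obtain ⟨q, hq⟩ := (pat_countable _ h2).exists_eq_range
    ⟨((∅, ∅, ⟨0, fun i => i.elim0⟩) : Pat ι), by simp [psupp]⟩
  have hxΛ : ∀ n, Sum.inr (x n) ∈ Λ := by
    intro n
    have : x n ∈ (Sum.inr ⁻¹' Λ : Set α) := by rw [hx]; exact ⟨n, rfl⟩
    exact this
  have hqΛ : ∀ n, ∀ i ∈ psupp (q n), Sum.inl i ∈ Λ := by
    intro n
    have : q n ∈ {p : Pat ι | psupp p ⊆ (Sum.inl ⁻¹' Λ : Set ι)} := by rw [hq]; exact ⟨n, rfl⟩
    exact fun i hi => this hi
  let W : ℕ → List (α × Pat ι) := fun n => n.rec [] (fun m r => (x m, q m) :: r)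
  have hW : ∀ n, W (n + 1) = (x n, q n) :: W n := fun n => rfl
  have hWΛ : ∀ n, wsupp (W n) ⊆ Λ := by
    intro n
    induction n with
    | zero =>
      rintro i ⟨y, hy, _⟩
      simp [W] at hy
    | succ n ih =>
      rintro i ⟨y, hy, hi⟩
      rw [hW, List.mem_cons] at hy
      rcases hy with rfl | hy
      · rcases hi with rfl | ⟨j, hj, rfl⟩
        · exact hxΛ n
        · exact hqΛ n j hj
      · exact ih ⟨y, hy, hi⟩
  let Dn : ℕ → Set α := fun n => R (W n)
  have hDn : ∀ n, Dn (n + 1) = N (Dn n) (x n) (q n) := fun n => rfl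
  have hDnLF : ∀ n, LF U (Dn n) := by
    intro n
    induction n with
    | zero => exact LF_of_finite finite_empty
    | succ n ih =>
      rw [hDn]
      exact hNLF _ _ _ ih
  have hcovall : ∀ z, z ∈ cov U (⋃ n, Dn n) := by
    intro z
    by_cases hz : z ∈ (Sum.inr ⁻¹' Λ : Set α)
    · obtain ⟨n, rfl⟩ : z ∈ range x := by rw [← hx]; exact hz
      refine cov_mono (subset_iUnion Dn (n + 1)) ?_
      rw [hDn]
      exact hN1 _ _ _
    · obtain ⟨p, hp, hzp, hzd⟩ := exists_pat v G (Sum.inl ⁻¹' Λ : Set ι) z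
      obtain ⟨n, rfl⟩ : p ∈ range q := by rw [← hq]; exact hp
      refine cov_mono (subset_iUnion Dn (n + 1)) ?_
      rw [hDn]
      by_cases hz1 : z ∈ cov U (D1 (Dn n) (x n))
      · exact cov_mono subset_union_left hz1
      · refine cov_mono subset_union_right ?_
        have hsub := hcl _ (hWΛ (n + 1))
        refine (hstep (D1 (Dn n) (x n)) (q n) (hD1LF _ _ (hDnLF _))).2.2 z hz1 hzp ?_ ?_
        · rw [Finset.disjoint_left]
          intro i hi hiH
          exact hzd i hi (hsub (Or.inl ⟨i, hiH, rfl⟩))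
        · intro hzE
          exact hz (hsub (Or.inr ⟨z, hzE, rfl⟩))
  apply hno
  refine ⟨⋃ n, Dn n, LF_iUnion Dn hDnLF ?_ ?_ hcovall, hcovall⟩
  · intro n
    rw [hDn]
    exact hDN _ _ _
  · intro n d hd hdn
    rw [hDn] at hd
    exact hNnew _ _ _ (hDnLF _) d hd hdn

end core

/-- Every neighbourhood assignment on an HFC space has a kernel which is locally finite in the
topology generated by the assignment. -/
theorem hfc_kernel {ι : Type u} [LinearOrder ι] (X : Set (ι → Bool)) (hX : IsHFC X)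
    (U : X → Set X) (hU : ∀ x, IsOpen (U x) ∧ x ∈ U x) :
    ∃ D : Set X, (⋃ x ∈ D, U x) = univ ∧
      ∀ z : X, ∃ F : Set X, F.Finite ∧ F.Nonempty ∧ z ∈ (⋂ x ∈ F, U x) ∧
        ((⋂ x ∈ F, U x) ∩ D).Finite := by
  classical
  have hG : ∀ x : X, ∃ G : Finset ι, ∀ y : X, (∀ i ∈ G, y.1 i = x.1 i) → y ∈ U x := by
    intro x
    obtain ⟨O, hO, hOU⟩ := isOpen_induced_iff.1 (hU x).1
    have hxO : x.1 ∈ O := by
      have : x ∈ Subtype.val ⁻¹' O := by rw [hOU]; exact (hU x).2
      exact this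
    obtain ⟨I, u, hIu, hsub⟩ := isOpen_pi_iff.1 hO x.1 hxO
    refine ⟨I, fun y hy => ?_⟩
    rw [← hOU]
    apply hsub
    intro i hi
    rw [hy i hi]
    exact (hIu i hi).2
  choose G hG using hG
  have hH : HFC' (fun x : X => x.1) := by
    intro n b 𝓕 h1 h2 h3
    have := (hX n b 𝓕 h1 h2 h3).preimage (Subtype.val_injective (p := fun x => x ∈ X))
    refine this.mono ?_
    intro x hx
    refine ⟨x.2, ?_⟩
    simp only [mem_iUnion, not_exists]
    exact hx
  obtain ⟨D, hD, hcov⟩ := core_theorem (fun x : X => x.1) G U (fun x y h => hG x y h) hH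
  refine ⟨D, ?_, ?_⟩
  · rw [eq_univ_iff_forall]
    intro z
    obtain ⟨x, hx, hz⟩ := hcov z
    exact mem_biUnion hx hz
  · intro z
    obtain ⟨x, hx, hz⟩ := hcov z
    obtain ⟨F, hF, hzF, hfin⟩ := hD z
    refine ⟨insert x F, hF.insert x, insert_nonempty x F, ?_, ?_⟩
    · simp only [mem_iInter]
      rintro y (rfl | hy)
      · exact hz
      · exact hzF y hy
    · refine hfin.subset ?_
      rintro d ⟨hd1, hd2⟩
      simp only [mem_iInter] at hd1
      exact ⟨hd2, fun y hy => hd1 y (Or.inr hy)⟩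

end Pool.Agent.Helper741_HFC
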